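import Pool.Agent.Helper19.HM.Goals

/-!
# Lower half of Haiman's theorem, module block: packet FXC (helper35)
-/

set_option autoImplicit false
set_option linter.unusedSectionVars false

namespace Pool.Agent.Helper35.HM

open Pool.Agent.Helper19.HM

theorem c_fxc : Pool.Agent.Helper19.HM.S_FXC := by
  intro n m g i j hi hij
  have hne : ∀ k, k ≠ i → g k ≠ i := fun k hk h => hk (g.injective (h.trans hi.symm))
  have pi_i : (g * Equiv.swap i j) i = g j := by
    rw [Equiv.Perm.mul_apply, Equiv.swap_apply_left]
  have pi_j : (g * Equiv.swap i j) j = i := by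
    rw [Equiv.Perm.mul_apply, Equiv.swap_apply_right, hi]
  have pi_k : ∀ k, k ≠ i → k ≠ j → (g * Equiv.swap i j) k = g k := by
    intro k h1 h2
    rw [Equiv.Perm.mul_apply, Equiv.swap_apply_of_ne_of_ne h1 h2]
  unfold fx
  rw [mul_comm]
  have hcard : Nat.card ({f : Fin n → Fin m // f ∘ (g * Equiv.swap i j) = f} × Fin m)
      = Nat.card {f : Fin n → Fin m // f ∘ (g * Equiv.swap i j) = f} * m := by
    rw [Nat.card_prod, Nat.card_eq_fintype_card (α := Fin m), Fintype.card_fin]
  rw [← hcard]
  refine Nat.card_congr
    { toFun := fun f => (⟨Function.update f.1 i (f.1 j), ?_⟩, f.1 i)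
      invFun := fun p => ⟨Function.update p.1.1 i p.2, ?_⟩
      left_inv := ?_
      right_inv := ?_ }
  · have hf : ∀ k, f.1 (g k) = f.1 k := fun k => congrFun f.2 k
    funext k
    rw [Function.comp_apply]
    by_cases h1 : k = i
    · rw [h1, pi_i, Function.update_self, Function.update_of_ne (hne j (Ne.symm hij)), hf]
    · by_cases h2 : k = j
      · rw [h2, pi_j, Function.update_self, Function.update_of_ne (Ne.symm hij)]
      · rw [pi_k k h1 h2, Function.update_of_ne (hne k h1), Function.update_of_ne h1, hf]
  · have hf : ∀ k, p.1.1 ((g * Equiv.swap i j) k) = p.1.1 k := fun k => congrFun p.1.2 k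
    funext k
    rw [Function.comp_apply]
    by_cases h1 : k = i
    · rw [h1, hi]
    · rw [Function.update_of_ne (hne k h1), Function.update_of_ne h1]
      by_cases h2 : k = j
      · have h3 := hf i
        have h4 := hf j
        rw [pi_i] at h3
        rw [pi_j] at h4
        rw [h2, h3, h4]
      · rw [← pi_k k h1 h2, hf]
  · intro f
    apply Subtype.ext
    change Function.update (Function.update f.1 i (f.1 j)) i (f.1 i) = f.1
    rw [Function.update_idem, Function.update_eq_self]
  · intro p
    have h4 : p.1.1 i = p.1.1 j := by
      have h5 := congrFun p.1.2 j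
      rw [Function.comp_apply, pi_j] at h5
      exact h5
    refine Prod.ext (Subtype.ext ?_) ?_
    · change Function.update (Function.update p.1.1 i p.2) i
        (Function.update p.1.1 i p.2 j) = p.1.1
      rw [Function.update_of_ne (Ne.symm hij), Function.update_idem, ← h4,
        Function.update_eq_self]
    · change Function.update p.1.1 i p.2 i = p.2
      rw [Function.update_self]

end Pool.Agent.Helper35.HM
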